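import Pool.Agent.H947R2.TP.Stubs

/-! Task A2 of helper947: characters kill a factor of a factorisation. -/

namespace H947TP

open Finset

theorem A2_sum_char {G : Type} [CommGroup G] [Fintype G] (χ : G →* ℂˣ) (hχ : χ ≠ 1) :
    ∑ g : G, ((χ g : ℂˣ) : ℂ) = 0 := by
  have hne : ∃ g, χ g ≠ 1 := by
    by_contra hcon
    push Not at hcon
    exact hχ (MonoidHom.ext hcon)
  obtain ⟨g0, hg0⟩ := hne
  have h1 : ((χ g0 : ℂˣ) : ℂ) * ∑ g : G, ((χ g : ℂˣ) : ℂ) = ∑ g : G, ((χ g : ℂˣ) : ℂ) := by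
    rw [mul_sum]
    refine Fintype.sum_equiv (Equiv.mulLeft g0) _ _ fun g => ?_
    rw [Equiv.coe_mulLeft, map_mul, Units.val_mul]
  have h2 : (((χ g0 : ℂˣ) : ℂ) - 1) * ∑ g : G, ((χ g : ℂˣ) : ℂ) = 0 := by
    rw [sub_mul, h1, one_mul, sub_self]
  rcases mul_eq_zero.1 h2 with h | h
  · exfalso
    apply hg0
    apply Units.ext
    rw [Units.val_one]
    exact sub_eq_zero.1 h
  · exact h

theorem A2 : St_A2 := by
  intro G _ _ ι _ _ g q hq hbij χ hχ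
  classical
  haveI : Fintype G := Fintype.ofFinite G
  have h1 := A2_sum_char χ hχ
  have h2 : ∑ x : G, ((χ x : ℂˣ) : ℂ) =
      ∑ a : (∀ i, Fin (q i)), ∏ i, ((χ (g i) : ℂˣ) : ℂ) ^ (a i : ℕ) := by
    symm
    refine Fintype.sum_bijective _ hbij _ _ fun a => ?_
    rw [map_prod, Units.coe_prod]
    refine prod_congr rfl fun i _ => ?_
    rw [map_pow, Units.val_pow_eq_pow_val]
  have h3 : ∑ a : (∀ i, Fin (q i)), ∏ i, ((χ (g i) : ℂˣ) : ℂ) ^ (a i : ℕ) =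
      ∏ i, ∑ t : Fin (q i), ((χ (g i) : ℂˣ) : ℂ) ^ (t : ℕ) := by
    rw [Finset.prod_univ_sum, Fintype.piFinset_univ]
  rw [h2, h3, prod_eq_zero_iff] at h1
  obtain ⟨i, _, hi⟩ := h1
  rw [Fin.sum_univ_eq_sum_range (fun t => ((χ (g i) : ℂˣ) : ℂ) ^ t)] at hi
  have h4 := mul_geom_sum ((χ (g i) : ℂˣ) : ℂ) (q i)
  rw [hi, mul_zero] at h4
  refine ⟨i, ?_, ?_⟩
  · apply Units.ext
    rw [Units.val_pow_eq_pow_val, Units.val_one]
    exact (sub_eq_zero.1 h4.symm)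
  · intro h5
    rw [h5, Units.val_one] at hi
    simp only [one_pow, sum_const, card_range, nsmul_eq_mul, mul_one] at hi
    have h6 := hq i
    have h7 : q i = 0 := by exact_mod_cast hi
    omega

end H947TP
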