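import Pool.Agent.H947R2.TP.Stubs

/-! Task A3 of helper947: the index of the annihilator. -/

namespace H947TP

theorem A3 : St_A3 := by
  intro G _ _ H P hP
  have h1 : P = (MonoidHom.domRestrictHom H ℂˣ).ker := by
    ext χ
    rw [hP, MonoidHom.mem_ker]
    constructor
    · intro h
      ext ⟨x, hx⟩
      have := h x hx
      simp [this]
    · intro h x hx
      have := DFunLike.congr_fun h ⟨x, hx⟩
      simpa using this
  have h2 : Function.Surjective (MonoidHom.domRestrictHom H ℂˣ) :=
    MonoidHom.domRestrict_surjective ℂ H
  rw [h1, Subgroup.index_ker, MonoidHom.range_eq_top.2 h2, Subgroup.card_top]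
  exact CommGroup.card_monoidHom_of_hasEnoughRootsOfUnity H ℂ

end H947TP
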