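import Pool.Agent.H947R2.TP.Stubs

/-! Task A4 of helper947: a subgroup containing a partial product of a factorisation. -/

namespace H947TP

open Finset

theorem A4 : St_A4 := by
  intro G _ _ ι _ _ g q _ hbij I H hI
  classical
  set Φ : (∀ i, Fin (q i)) → G := fun a => ∏ i, g i ^ (a i : ℕ) with hΦ
  let e : (∀ i, Fin (q i)) ≃ G := Equiv.ofBijective Φ hbij
  let p : ι → Prop := fun i => i ∉ I
  let R : (∀ i : {i // p i}, Fin (q i)) → Prop := fun b => ∏ i : {i // p i}, g i ^ (b i : ℕ) ∈ H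
  have h1 : ∀ a, Φ a ∈ H ↔ R ((Equiv.piEquivPiSubtypeProd p (fun i => Fin (q i))) a).1 := by
    intro a
    have h2 : Φ a = (∏ i : {i // p i}, g i ^ (a i : ℕ)) * ∏ i : {i // ¬ p i}, g i ^ (a i : ℕ) :=
      (Fintype.prod_subtype_mul_prod_subtype p (fun i => g i ^ (a i : ℕ))).symm
    have h3 : ∏ i : {i // ¬ p i}, g i ^ (a i : ℕ) ∈ H := by
      refine Subgroup.prod_mem _ fun i _ => ?_
      exact H.pow_mem (hI i (not_not.1 i.2)) _
    rw [h2]
    exact H.mul_mem_cancel_right h3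
  have E : H ≃ {b : (∀ i : {i // p i}, Fin (q i)) // R b} × (∀ i : {i // ¬ p i}, Fin (q i)) :=
    calc H ≃ {a // Φ a ∈ H} := (e.subtypeEquiv (fun a => Iff.rfl)).symm
      _ ≃ {s : (∀ i : {i // p i}, Fin (q i)) × (∀ i : {i // ¬ p i}, Fin (q i)) // R s.1} :=
        (Equiv.piEquivPiSubtypeProd p (fun i => Fin (q i))).subtypeEquiv h1
      _ ≃ _ := Equiv.prodSubtypeFstEquivSubtypeProd
  have h4 : Nat.card (∀ i : {i // ¬ p i}, Fin (q i)) = ∏ i ∈ I, q i := by
    rw [Nat.card_pi]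
    simp only [Nat.card_eq_fintype_card, Fintype.card_fin]
    symm
    exact Finset.prod_subtype I (fun x => by simp [p]) q
  rw [Nat.card_congr E, Nat.card_prod, h4]
  exact dvd_mul_left _ _

end H947TP
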