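import Pool.Agent.H947R2.TP.Stubs

/-! Task C1 of helper947: projection of a tiling group. -/

namespace H947TP

theorem C1 : St_C1 := by
  intro D L p hL hp y
  -- reduction of the coordinate p
  have red : ∀ w ∈ L, (∀ i : Fin D, remMap p w i ≤ y i ∧ y i < remMap p w i + 1) →
      ∃ w1 ∈ L, remMap p w1 = remMap p w ∧
        ∀ i, w1 i ≤ (Fin.insertNth p (0 : ℝ) y : Fin (D + 1) → ℝ) i ∧
          (Fin.insertNth p (0 : ℝ) y : Fin (D + 1) → ℝ) i < w1 i + 1 := by
    intro w hw h
    refine ⟨w - ⌈w p⌉ • (Pi.single p (1 : ℝ) : Fin (D + 1) → ℝ),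
      L.sub_mem hw (L.zsmul_mem hp _), ?_, ?_⟩
    · funext i
      show (w - ⌈w p⌉ • (Pi.single p (1 : ℝ) : Fin (D + 1) → ℝ)) (p.succAbove i) =
        w (p.succAbove i)
      rw [Pi.sub_apply, Pi.smul_apply, Pi.single_eq_of_ne (Fin.succAbove_ne p i), smul_zero,
        sub_zero]
    · intro i
      induction i using Fin.succAboveCases p with
      | x =>
        rw [Fin.insertNth_apply_same, Pi.sub_apply, Pi.smul_apply, Pi.single_eq_same,
          zsmul_eq_mul, mul_one]
        have h1 := Int.le_ceil (w p)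
        have h2 := Int.ceil_lt_add_one (w p)
        constructor <;> linarith
      | p i =>
        rw [Fin.insertNth_apply_succAbove, Pi.sub_apply, Pi.smul_apply,
          Pi.single_eq_of_ne (Fin.succAbove_ne p i), smul_zero, sub_zero]
        exact h i
  obtain ⟨v, ⟨hv, hv1⟩, huniq⟩ := hL (Fin.insertNth p (0 : ℝ) y)
  refine ⟨remMap p v, ⟨⟨v, hv, rfl⟩, fun i => ?_⟩, ?_⟩
  · have := hv1 (p.succAbove i)
    rw [Fin.insertNth_apply_succAbove] at this
    exact this
  · rintro w' ⟨⟨w, hw, rfl⟩, hw1⟩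
    obtain ⟨w1, hw1L, hw1e, hw1c⟩ := red w hw hw1
    have h1 := huniq w1 ⟨hw1L, hw1c⟩
    show remMap p w = remMap p v
    rw [← hw1e, h1]

end H947TP
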