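import Pool.Agent.H947R2.TP.Stubs

/-! Task C4 of helper947: a one-variable inequality. -/

namespace H947TP

theorem C4_sinh_le {a : ℝ} (ha : 0 ≤ a) : Real.sinh a ≤ a * Real.cosh a := by
  rcases ha.eq_or_lt with rfl | ha
  · simp
  obtain ⟨c, hc, h⟩ := exists_hasDerivAt_eq_slope Real.sinh Real.cosh ha
    Real.continuous_sinh.continuousOn (fun x _ => Real.hasDerivAt_sinh x)
  rw [eq_div_iff (by linarith [hc.1, hc.2]), Real.sinh_zero, sub_zero, sub_zero] at h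
  have h1 : Real.cosh c ≤ Real.cosh a := by
    rw [Real.cosh_le_cosh, abs_of_pos hc.1, abs_of_pos ha]
    exact hc.2.le
  rw [← h, mul_comm]
  exact mul_le_mul_of_nonneg_left h1 ha.le

theorem C4_aux (lam s : ℝ) (h0 : 0 ≤ lam) (h4 : lam ≤ 4) (hs : 0 ≤ s) :
    Real.cosh (lam * s) - 2 * s * Real.sinh (lam * s) ≤ 1 := by
  obtain ⟨a, ha⟩ : ∃ a, a = lam * s / 2 := ⟨_, rfl⟩
  have h1 : lam * s = 2 * a := by rw [ha]; ring
  have ha0 : 0 ≤ a := by rw [ha]; positivity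
  have ha1 : a ≤ 2 * s := by rw [ha]; nlinarith
  rw [h1, Real.cosh_two_mul, Real.sinh_two_mul]
  have h2 : Real.cosh a ^ 2 = 1 + Real.sinh a ^ 2 := by
    have := Real.cosh_sq_sub_sinh_sq a
    linarith
  have h3 : Real.sinh a ≤ 2 * s * Real.cosh a :=
    (C4_sinh_le ha0).trans (mul_le_mul_of_nonneg_right ha1 (Real.cosh_pos a).le)
  have h5 : 0 ≤ Real.sinh a := Real.sinh_nonneg_iff.2 ha0
  nlinarith [mul_nonneg h5 (sub_nonneg.2 h3)]

theorem C4 : St_C4 := by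
  intro lam θ h0 h4 ht0 ht1
  have e1 : (1 - θ) * Real.exp (lam * (θ - 1 / 2)) + θ * Real.exp (lam * ((1 - θ) - 1 / 2)) =
      Real.cosh (lam * (θ - 1 / 2)) - 2 * (θ - 1 / 2) * Real.sinh (lam * (θ - 1 / 2)) := by
    rw [Real.cosh_eq, Real.sinh_eq]
    have : lam * ((1 - θ) - 1 / 2) = -(lam * (θ - 1 / 2)) := by ring
    rw [this]
    ring
  rw [e1]
  rcases le_total 0 (θ - 1 / 2) with h | h
  · exact C4_aux lam _ h0 h4 h
  · have h5 := C4_aux lam (-(θ - 1 / 2)) h0 h4 (by linarith)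
    have e2 : lam * -(θ - 1 / 2) = -(lam * (θ - 1 / 2)) := by ring
    rw [e2, Real.cosh_neg, Real.sinh_neg] at h5
    linarith

end H947TP
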