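import Pool.Agent.H947R2.TP.Stubs

/-! Task L5 of helper947: closed covering and separation give a tiling. -/

namespace H947TP

theorem L5 : St_L5 := by
  intro D L hsep hcov
  have heq : ∀ u ∈ L, ∀ v ∈ L, (∀ l, |u l - v l| < 1) → u = v := by
    intro u hu v hv h
    by_contra hne
    obtain ⟨l, hl⟩ := hsep (u - v) (L.sub_mem hu hv) (sub_ne_zero.2 hne)
    rw [Pi.sub_apply] at hl
    have := h l
    linarith
  intro x
  choose v hvL hv using fun j : ℕ => hcov (fun l => x l + 1 / ((j : ℝ) + 1))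
  have hb : ∀ j : ℕ, 0 < 1 / ((j : ℝ) + 1) ∧ 1 / ((j : ℝ) + 1) ≤ 1 := by
    intro j
    have h1 : (0 : ℝ) < (j : ℝ) + 1 := by positivity
    refine ⟨by positivity, ?_⟩
    rw [div_le_one h1]
    have : (0 : ℝ) ≤ j := Nat.cast_nonneg j
    linarith
  let F : ℕ → (Fin D → ℤ) := fun j l => ⌊2 * v j l⌋
  let S : Set (Fin D → ℤ) := Set.Icc (fun l => ⌊2 * x l - 2⌋) (fun l => ⌊2 * x l + 2⌋)
  have hFS : ∀ j, F j ∈ S := by
    intro j
    constructor
    · intro l
      apply Int.floor_le_floor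
      have h1 := (hv j l).2
      have h2 := (hb j).1
      linarith
    · intro l
      apply Int.floor_le_floor
      have h1 := (hv j l).1
      have h2 := (hb j).2
      linarith
  have : Finite S := (Set.finite_Icc _ _).to_subtype
  obtain ⟨c, hc⟩ := Finite.exists_infinite_fiber (fun j : ℕ => (⟨F j, hFS j⟩ : S))
  have hinf : ((fun j : ℕ => (⟨F j, hFS j⟩ : S)) ⁻¹' {c}).Infinite := Set.infinite_coe_iff.1 hc
  obtain ⟨j0, hj0⟩ := hinf.nonempty
  have hsame : ∀ j ∈ ((fun j : ℕ => (⟨F j, hFS j⟩ : S)) ⁻¹' {c}), v j = v j0 := by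
    intro j hj
    have h1 : F j = F j0 := by
      have e1 : (⟨F j, hFS j⟩ : S) = c := hj
      have e2 : (⟨F j0, hFS j0⟩ : S) = c := hj0
      exact congrArg Subtype.val (e1.trans e2.symm)
    apply heq _ (hvL j) _ (hvL j0)
    intro l
    have h2 : ⌊2 * v j l⌋ = ⌊2 * v j0 l⌋ := congrFun h1 l
    have h3 := Int.abs_sub_lt_one_of_floor_eq_floor h2
    have h4 : 2 * v j l - 2 * v j0 l = 2 * (v j l - v j0 l) := by ring
    rw [h4, abs_mul, abs_two] at h3
    linarith [abs_nonneg (v j l - v j0 l)]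
  refine ⟨v j0, ⟨hvL j0, fun l => ⟨?_, ?_⟩⟩, ?_⟩
  · by_contra hcon
    push Not at hcon
    obtain ⟨n, hn⟩ := exists_nat_one_div_lt (sub_pos.2 hcon)
    obtain ⟨j, hj, hnj⟩ := hinf.exists_gt n
    have h1 := (hv j l).1
    rw [hsame j hj] at h1
    have h2 : 1 / ((j : ℝ) + 1) ≤ 1 / ((n : ℝ) + 1) := by
      apply one_div_le_one_div_of_le (by positivity)
      have : (n : ℝ) ≤ j := by exact_mod_cast hnj.le
      linarith
    linarith
  · have h1 := (hv j0 l).2
    have h2 := (hb j0).1
    linarith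
  · rintro w ⟨hw, hw1⟩
    apply heq w hw _ (hvL j0)
    intro l
    have h1 := hw1 l
    have h2 : v j0 l ≤ x l ∧ x l < v j0 l + 1 := by
      constructor
      · by_contra hcon
        push Not at hcon
        obtain ⟨n, hn⟩ := exists_nat_one_div_lt (sub_pos.2 hcon)
        obtain ⟨j, hj, hnj⟩ := hinf.exists_gt n
        have h1 := (hv j l).1
        rw [hsame j hj] at h1
        have h2 : 1 / ((j : ℝ) + 1) ≤ 1 / ((n : ℝ) + 1) := by
          apply one_div_le_one_div_of_le (by positivity)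
          have : (n : ℝ) ≤ j := by exact_mod_cast hnj.le
          linarith
        linarith
      · have h1 := (hv j0 l).2
        have h2 := (hb j0).1
        linarith
    rw [abs_lt]
    constructor <;> linarith

end H947TP
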